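import Mathlib

set_option autoImplicit false

namespace Pool.Agent.Results.MP_1195b1_lc.OracleLB

open Finset

/-! ### Definitions used in the statement -/

/-- A deterministic adaptive decision procedure on the ground set `Fin n` with access to two value
oracles: it either stops and answers yes or no, or asks the oracle number `b` for the value of its
function at the set `X` and continues according to the answer. -/
inductive DTree (n : ℕ) : Type
  | out (ans : Bool) : DTree n
  | ask (b : Bool) (X : Finset (Fin n)) (next : ℤ → DTree n) : DTree n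

/-- The answer of the procedure when the oracles are the two functions `p true` and `p false`. -/
def DTree.answer {n : ℕ} (p : Bool → Finset (Fin n) → ℤ) : DTree n → Bool
  | .out ans => ans
  | .ask b X next => (next (p b X)).answer p

/-- The number of oracle calls made by the procedure. -/
def DTree.calls {n : ℕ} (p : Bool → Finset (Fin n) → ℤ) : DTree n → ℕ
  | .out _ => 0
  | .ask b X next => (next (p b X)).calls p + 1

/-- Skew-supermodular set functions. -/
def SkewSupermodular {n : ℕ} (p : Finset (Fin n) → ℤ) : Prop :=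
  ∀ X Y, p X + p Y ≤ p (X ∩ Y) + p (X ∪ Y) ∨ p X + p Y ≤ p (X \ Y) + p (Y \ X)

/-- Valid inputs: `m₁, m₂, n₁, n₂ > 0`, `m₁ n₁ + m₂ n₂ = |S|`, both functions skew-supermodular and
bounded above by `min |X| (m₁ + m₂)`. Here `p true` is `p₁` and `p false` is `p₂`. -/
def IsInstance (n m₁ m₂ n₁ n₂ : ℕ) (p : Bool → Finset (Fin n) → ℤ) : Prop :=
  0 < m₁ ∧ 0 < m₂ ∧ 0 < n₁ ∧ 0 < n₂ ∧ m₁ * n₁ + m₂ * n₂ = n ∧
  SkewSupermodular (p true) ∧ SkewSupermodular (p false) ∧
  ∀ X, max (p true X) (p false X) ≤ min (X.card : ℤ) ((m₁ : ℤ) + m₂)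

/-- Feasible partitions: `m₁` classes of size `n₁` and `m₂` classes of size `n₂`, and every set `X`
meets at least `max (p₁ X) (p₂ X)` classes. -/
def IsFeasible {n : ℕ} (m₁ m₂ n₁ n₂ : ℕ) (p : Bool → Finset (Fin n) → ℤ)
    (P : Finpartition (univ : Finset (Fin n))) : Prop :=
  P.parts.val.map Finset.card = Multiset.replicate m₁ n₁ + Multiset.replicate m₂ n₂ ∧
  ∀ X : Finset (Fin n), max (p true X) (p false X) ≤
    ((P.parts.filter (fun Y => (Y ∩ X).Nonempty)).card : ℤ)

/-! ### Decision trees -/

/-- The queries asked in a run. -/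
def DTree.asked {n : ℕ} (p : Bool → Finset (Fin n) → ℤ) : DTree n → List (Bool × Finset (Fin n))
  | .out _ => []
  | .ask b X next => (b, X) :: (next (p b X)).asked p

lemma asked_length {n : ℕ} (p : Bool → Finset (Fin n) → ℤ) (T : DTree n) :
    (T.asked p).length = T.calls p := by
  induction T with
  | out ans => rfl
  | ask b X next ih => simp [DTree.asked, DTree.calls, ih]

lemma answer_congr {n : ℕ} (p q : Bool → Finset (Fin n) → ℤ) (T : DTree n)
    (h : ∀ a ∈ T.asked p, p a.1 a.2 = q a.1 a.2) : T.answer q = T.answer p := by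
  induction T with
  | out ans => rfl
  | ask b X next ih =>
    have h0 : p b X = q b X := h (b, X) (by simp [DTree.asked])
    simp only [DTree.answer]
    rw [← h0]
    exact ih _ (fun a ha => h a (by simp [DTree.asked, ha]))

/-! ### The ground set: `t` positions, two pairs in each position -/

section Inst

variable {t n : ℕ} (e : ((Fin t × Bool) × Bool) ≃ Fin n)

/-- the hidden set. -/
def hid (χ : Fin t → Bool) : Finset (Fin n) :=
  univ.filter (fun a => (e.symm a).1.2 = χ (e.symm a).1.1)

/-- the transversal. -/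
def tv : Finset (Fin n) := univ.filter (fun a => (e.symm a).2 = true)

/-- the pairs contained in `X`. -/
def prs (X : Finset (Fin n)) : Finset (Fin t × Bool) :=
  univ.filter (fun q => e (q, true) ∈ X ∧ e (q, false) ∈ X)

lemma card_hid (χ : Fin t → Bool) : (hid e χ).card = 2 * t := by
  have : hid e χ = univ.image (fun q : Fin t × Bool => e ((q.1, χ q.1), q.2)) := by
    ext a
    simp only [hid, mem_filter, mem_univ, true_and, mem_image, Prod.exists]
    constructor
    · intro h
      refine ⟨(e.symm a).1.1, (e.symm a).2, ?_⟩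
      rw [← h]
      simp
    · rintro ⟨i, b, rfl⟩
      simp
  rw [this, card_image_of_injective]
  · simp [mul_comm]
  · rintro ⟨i, b⟩ ⟨j, c⟩ h
    simp only [EmbeddingLike.apply_eq_iff_eq, Prod.mk.injEq] at h
    simp [h.1.1, h.2]

lemma card_tv : (tv e).card = 2 * t := by
  have : tv e = univ.image (fun q : Fin t × Bool => e (q, true)) := by
    ext a
    simp only [tv, mem_filter, mem_univ, true_and, mem_image]
    constructor
    · intro h
      refine ⟨(e.symm a).1, ?_⟩
      rw [← h]
      simp
    · rintro ⟨q, rfl⟩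
      simp
  rw [this, card_image_of_injective]
  · simp [mul_comm]
  · intro q q' h
    simpa using h

/-- the base function. -/
def p0 (X : Finset (Fin n)) : ℤ := -(X.card : ℤ)

/-- the hidden function. -/
def ph (χ : Fin t → Bool) (X : Finset (Fin n)) : ℤ :=
  if X ⊆ hid e χ then max ((X.card : ℤ) + 2 - t) (-(X.card : ℤ)) else -(X.card : ℤ)

/-- the pair-forcing function. -/
def p2 (X : Finset (Fin n)) : ℤ := if X = ∅ then 0 else 1 + ((prs e X).card : ℤ)

lemma cardS (X Y : Finset (Fin n)) :
    ((X ∩ Y).card : ℤ) + (X ∪ Y).card = X.card + Y.card := by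
  have := card_inter_add_card_union X Y
  exact_mod_cast this

lemma cardN (X Y : Finset (Fin n)) :
    ((X \ Y).card : ℤ) - (Y \ X).card = X.card - Y.card := by
  have h1 := card_sdiff_add_card_inter X Y
  have h2 := card_sdiff_add_card_inter Y X
  rw [inter_comm] at h2
  have h1' : ((X \ Y).card : ℤ) + (X ∩ Y).card = X.card := by exact_mod_cast h1
  have h2' : ((Y \ X).card : ℤ) + (X ∩ Y).card = Y.card := by exact_mod_cast h2
  linarith

lemma skew_p0 : SkewSupermodular (p0 (n := n)) := by
  intro X Y
  left
  unfold p0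
  have := cardS X Y
  linarith

lemma ph_ge (χ : Fin t → Bool) (X : Finset (Fin n)) : -(X.card : ℤ) ≤ ph e χ X := by
  unfold ph
  split_ifs
  · exact le_max_right _ _
  · exact le_rfl

lemma ph_ge' (χ : Fin t → Bool) {X : Finset (Fin n)} (h : X ⊆ hid e χ) :
    (X.card : ℤ) + 2 - t ≤ ph e χ X := by
  unfold ph
  rw [if_pos h]
  exact le_max_left _ _

lemma ph_cases (χ : Fin t → Bool) (X : Finset (Fin n)) :
    ph e χ X = -(X.card : ℤ) ∨ (X ⊆ hid e χ ∧ ph e χ X = (X.card : ℤ) + 2 - t) := by
  unfold ph
  split_ifs with h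
  · rcases max_choice ((X.card : ℤ) + 2 - t) (-(X.card : ℤ)) with h1 | h1
    · right; exact ⟨h, h1⟩
    · left; exact h1
  · left; rfl

lemma skew_ph (χ : Fin t → Bool) : SkewSupermodular (ph e χ) := by
  intro X Y
  have hS := cardS X Y
  have hN := cardN X Y
  rcases ph_cases e χ X with h1 | ⟨h1, h1'⟩ <;> rcases ph_cases e χ Y with h2 | ⟨h2, h2'⟩
  · left
    have h3 := ph_ge e χ (X ∩ Y)
    have h4 := ph_ge e χ (X ∪ Y)
    rw [h1, h2]; linarith
  · right
    have h3 := ph_ge e χ (X \ Y)
    have h4 := ph_ge' e χ (sdiff_subset.trans h2 : Y \ X ⊆ hid e χ)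
    rw [h1, h2']; linarith
  · right
    have h3 := ph_ge e χ (Y \ X)
    have h4 := ph_ge' e χ (sdiff_subset.trans h1 : X \ Y ⊆ hid e χ)
    rw [h1', h2]; linarith
  · left
    have h3 := ph_ge' e χ (inter_subset_left.trans h1 : X ∩ Y ⊆ hid e χ)
    have h4 := ph_ge' e χ (union_subset h1 h2)
    rw [h1', h2']; linarith

lemma prs_super (X Y : Finset (Fin n)) :
    (prs e X).card + (prs e Y).card ≤ (prs e (X ∩ Y)).card + (prs e (X ∪ Y)).card := by
  have h1 : prs e (X ∩ Y) = prs e X ∩ prs e Y := by
    ext q
    simp only [prs, mem_filter, mem_univ, true_and, mem_inter]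
    tauto
  have h2 : prs e X ∪ prs e Y ⊆ prs e (X ∪ Y) := by
    intro q
    simp only [prs, mem_filter, mem_univ, true_and, mem_union]
    tauto
  rw [h1, ← card_inter_add_card_union (prs e X) (prs e Y)]
  exact Nat.add_le_add_left (card_le_card h2) _

lemma skew_p2 : SkewSupermodular (p2 e) := by
  intro X Y
  by_cases h : X ∩ Y = ∅
  · right
    have hd : Disjoint X Y := disjoint_iff_inter_eq_empty.2 h
    rw [sdiff_eq_self_of_disjoint hd, sdiff_eq_self_of_disjoint hd.symm]
  · left
    have hX : X ≠ ∅ := by rintro rfl; simp at h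
    have hY : Y ≠ ∅ := by rintro rfl; simp at h
    have hU : X ∪ Y ≠ ∅ := by
      intro h'
      exact hX (union_eq_empty.1 h').1
    unfold p2
    rw [if_neg h, if_neg hX, if_neg hY, if_neg hU]
    have := prs_super e X Y
    have h' : ((prs e X).card : ℤ) + (prs e Y).card ≤ (prs e (X ∩ Y)).card + (prs e (X ∪ Y)).card := by
      exact_mod_cast this
    linarith

lemma card_prs_le (X : Finset (Fin n)) : 2 * (prs e X).card ≤ X.card := by
  have h : ((prs e X ×ˢ (univ : Finset Bool)).image (fun q => e q)) ⊆ X := by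
    intro a ha
    simp only [mem_image, mem_product, mem_univ, and_true, prs, mem_filter, true_and] at ha
    obtain ⟨⟨q, b⟩, hq, rfl⟩ := ha
    cases b
    · exact hq.2
    · exact hq.1
  have h2 := card_le_card h
  rw [card_image_of_injective _ e.injective, card_product] at h2
  simpa [mul_comm] using h2

lemma card_prs_le' (X : Finset (Fin n)) : (prs e X).card ≤ 2 * t := by
  refine (card_le_univ _).trans ?_
  simp [mul_comm]

/-- the pair of functions. -/
def pp (p₁ p₂ : Finset (Fin n) → ℤ) : Bool → Finset (Fin n) → ℤ := fun b => if b then p₁ else p₂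

lemma p2_le (X : Finset (Fin n)) : p2 e X ≤ X.card ∧ p2 e X ≤ 2 * (t : ℤ) + 1 := by
  unfold p2
  split_ifs with h
  · subst h; simp; omega
  · have h1 := card_prs_le e X
    have h2 := card_prs_le' e X
    have h3 : 0 < X.card := card_pos.2 (nonempty_iff_ne_empty.2 h)
    omega

lemma ph_le (ht : 2 ≤ t) (χ : Fin t → Bool) (X : Finset (Fin n)) :
    ph e χ X ≤ X.card ∧ ph e χ X ≤ 2 * (t : ℤ) + 1 := by
  unfold ph
  split_ifs with h
  · have h1 := card_le_card h
    rw [card_hid] at h1
    omega
  · omega

lemma inst_hid (ht : 2 ≤ t) (hn : n = 4 * t) (χ : Fin t → Bool) :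
    IsInstance n (2 * t) 1 1 (2 * t) (pp (ph e χ) (p2 e)) := by
  refine ⟨by omega, by omega, by omega, by omega, by omega, skew_ph e χ, skew_p2 e, fun X => ?_⟩
  have h1 := p2_le e X
  have h2 := ph_le e ht χ X
  simp only [pp, if_true, Bool.false_eq_true, if_false]
  refine max_le (le_min h2.1 ?_) (le_min h1.1 ?_)
  · push_cast; exact h2.2
  · push_cast; exact h1.2

lemma inst_base (ht : 2 ≤ t) (hn : n = 4 * t) :
    IsInstance n (2 * t) 1 1 (2 * t) (pp p0 (p2 e)) := by
  refine ⟨by omega, by omega, by omega, by omega, by omega, skew_p0, skew_p2 e, fun X => ?_⟩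
  have h1 := p2_le e X
  simp only [pp, if_true, Bool.false_eq_true, if_false]
  refine max_le (le_min ?_ ?_) (le_min h1.1 ?_)
  · unfold p0; omega
  · unfold p0; push_cast; omega
  · push_cast; exact h1.2

/-- the feasible partition of the base instance. -/
lemma exists_feasible (ht : 2 ≤ t) (hn : n = 4 * t) :
    ∃ P, IsFeasible (2 * t) 1 1 (2 * t) (pp p0 (p2 e)) P := by
  have hb : tv e ≠ ⊥ := by
    intro h
    have := card_tv e
    rw [h] at this
    simp at this
    omega
  have hdis : Disjoint (univ \ tv e) (tv e) := sdiff_disjoint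
  have hc : (univ \ tv e) ⊔ tv e = univ := by
    rw [sup_eq_union]; exact sdiff_union_of_subset (subset_univ _)
  let P : Finpartition (univ : Finset (Fin n)) :=
    (⊥ : Finpartition (univ \ tv e)).extend hb hdis hc
  have hparts : P.parts = insert (tv e) ((univ \ tv e).map ⟨singleton, singleton_injective⟩) := by
    simp only [P, Finpartition.extend_parts, Finpartition.parts_bot]
  have hnot : tv e ∉ ((univ \ tv e).map ⟨singleton, singleton_injective⟩) := by
    intro h
    simp only [mem_map, mem_sdiff, mem_univ, true_and, Function.Embedding.coeFn_mk] at h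
    obtain ⟨a, ha, ha'⟩ := h
    apply ha
    rw [← ha']; exact mem_singleton_self a
  have hcard : (univ \ tv e).card = 2 * t := by
    rw [card_sdiff_of_subset (subset_univ _), card_tv, card_univ, Fintype.card_fin]; omega
  refine ⟨P, ?_, ?_⟩
  · rw [hparts, insert_val_of_notMem hnot, Multiset.map_cons, card_tv, map_val, Multiset.map_map]
    have : Multiset.map (Finset.card ∘ (⟨singleton, singleton_injective⟩ : Fin n ↪ Finset (Fin n)))
        (univ \ tv e).val = Multiset.replicate (2 * t) 1 := by
      rw [Multiset.eq_replicate]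
      refine ⟨by rw [Multiset.card_map]; exact hcard, ?_⟩
      intro b hb
      rw [Multiset.mem_map] at hb
      obtain ⟨a, -, rfl⟩ := hb
      simp
    rw [this, Multiset.replicate_one, add_comm, Multiset.singleton_add]
  · intro X
    simp only [pp, if_true, Bool.false_eq_true, if_false]
    refine max_le ?_ ?_
    · unfold p0; omega
    · unfold p2
      split_ifs with hX
      · exact Int.natCast_nonneg _
      · have hsing : (X \ tv e).image singleton ⊆
            P.parts.filter (fun Y => (Y ∩ X).Nonempty) := by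
          intro Y hY
          rw [mem_image] at hY
          obtain ⟨a, ha, rfl⟩ := hY
          rw [mem_sdiff] at ha
          rw [mem_filter, hparts]
          refine ⟨mem_insert_of_mem ?_, ⟨a, by simp [ha.1]⟩⟩
          simp only [mem_map, mem_sdiff, mem_univ, true_and, Function.Embedding.coeFn_mk]
          exact ⟨a, ha.2, rfl⟩
        have hcs : ((X \ tv e).image (singleton : Fin n → Finset (Fin n))).card
            = (X \ tv e).card := card_image_of_injective _ singleton_injective
        have hj : (prs e X).card ≤ (X \ tv e).card := by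
          refine card_le_card_of_injOn (fun q => e (q, false)) ?_ ?_
          · intro q hq
            simp only [prs, mem_coe, mem_filter, mem_univ, true_and] at hq
            simp only [mem_coe, mem_sdiff, tv, mem_filter, mem_univ, true_and]
            exact ⟨hq.2, by simp⟩
          · intro q _ q' _ h
            simpa using h
        by_cases hmeet : (tv e ∩ X).Nonempty
        · have h2 : insert (tv e) ((X \ tv e).image singleton) ⊆
              P.parts.filter (fun Y => (Y ∩ X).Nonempty) := by
            apply insert_subset _ hsing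
            rw [mem_filter, hparts]
            exact ⟨mem_insert_self _ _, hmeet⟩
          have h3 := card_le_card h2
          rw [card_insert_of_notMem, hcs] at h3
          · have : 1 + (prs e X).card ≤ (P.parts.filter (fun Y => (Y ∩ X).Nonempty)).card := by omega
            exact_mod_cast this
          · intro h
            rw [mem_image] at h
            obtain ⟨a, ha, ha'⟩ := h
            rw [mem_sdiff] at ha
            apply ha.2
            rw [← ha']; exact mem_singleton_self a
        · have hj0 : (prs e X).card = 0 := by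
            rw [card_eq_zero, eq_empty_iff_forall_notMem]
            intro q hq
            simp only [prs, mem_filter, mem_univ, true_and] at hq
            exact hmeet ⟨e (q, true), by simp [tv, hq.1]⟩
          have hne : (X \ tv e).card ≠ 0 := by
            rw [card_ne_zero]
            obtain ⟨a, ha⟩ := nonempty_iff_ne_empty.2 hX
            refine ⟨a, mem_sdiff.2 ⟨ha, fun h => hmeet ⟨a, mem_inter.2 ⟨h, ha⟩⟩⟩⟩
          have h3 := card_le_card hsing
          rw [hcs] at h3
          have : 1 + (prs e X).card ≤ (P.parts.filter (fun Y => (Y ∩ X).Nonempty)).card := by omega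
          exact_mod_cast this

lemma infeasible (ht : 2 ≤ t) (χ : Fin t → Bool) (P : Finpartition (univ : Finset (Fin n)))
    (h : IsFeasible (2 * t) 1 1 (2 * t) (pp (ph e χ) (p2 e)) P) : False := by
  obtain ⟨hsz, hcov⟩ := h
  have h1 : (P.parts.filter (fun Y => Y.card ≠ 1)).card = 1 := by
    have h2 := congrArg (fun s => (s.filter (· ≠ 1)).card) hsz
    simp only [Multiset.filter_add, Multiset.card_add] at h2
    have h3 : (Multiset.replicate (2 * t) 1).filter (· ≠ 1) = 0 := by
      rw [Multiset.filter_eq_nil]
      intro a ha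
      rw [Multiset.eq_of_mem_replicate ha]; simp
    have h4 : (Multiset.replicate 1 (2 * t)).filter (· ≠ 1) = {2 * t} := by
      rw [Multiset.replicate_one, Multiset.filter_singleton, if_pos]
      omega
    rw [h3, h4, Multiset.filter_map, Multiset.card_map] at h2
    rw [Multiset.card_zero, Multiset.card_singleton, zero_add] at h2
    exact h2
  obtain ⟨Z, hZ⟩ := card_eq_one.1 h1
  have hZmem : Z ∈ P.parts ∧ Z.card ≠ 1 := by
    have : Z ∈ P.parts.filter (fun Y => Y.card ≠ 1) := by rw [hZ]; exact mem_singleton_self _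
    rwa [mem_filter] at this
  have hZcard : Z.card = 2 * t := by
    have h2 : Z.card ∈ P.parts.val.map Finset.card := Multiset.mem_map_of_mem _ hZmem.1
    rw [hsz, Multiset.mem_add] at h2
    rcases h2 with h2 | h2
    · exact absurd (Multiset.eq_of_mem_replicate h2) hZmem.2
    · exact Multiset.eq_of_mem_replicate h2
  have hother : ∀ Y ∈ P.parts, Y ≠ Z → Y.card = 1 := by
    intro Y hY hYZ
    by_contra hne
    have : Y ∈ P.parts.filter (fun Y => Y.card ≠ 1) := mem_filter.2 ⟨hY, hne⟩
    rw [hZ, mem_singleton] at this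
    exact hYZ this
  have hpair : ∀ q : Fin t × Bool, ¬ (e (q, true) ∈ Z ∧ e (q, false) ∈ Z) := by
    rintro q ⟨hq1, hq2⟩
    have h2 := hcov {e (q, true), e (q, false)}
    simp only [pp, if_true, Bool.false_eq_true, if_false] at h2
    have h3 : (2 : ℤ) ≤ p2 e {e (q, true), e (q, false)} := by
      unfold p2
      rw [if_neg (by simp)]
      have : 0 < (prs e {e (q, true), e (q, false)}).card := by
        rw [card_pos]
        exact ⟨q, by simp [prs]⟩
      omega
    have h4 : (P.parts.filter (fun Y => (Y ∩ {e (q, true), e (q, false)}).Nonempty)) ⊆ {Z} := by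
      intro Y hY
      rw [mem_filter] at hY
      obtain ⟨hY1, a, ha⟩ := hY
      rw [mem_inter, mem_insert, mem_singleton] at ha
      have haZ : a ∈ Z := by rcases ha.2 with rfl | rfl <;> assumption
      rw [mem_singleton]
      by_contra hne
      exact disjoint_left.1 (P.disjoint hY1 hZmem.1 hne) ha.1 haZ
    have h5 := card_le_card h4
    rw [card_singleton] at h5
    have h6 := (le_max_right _ _).trans h2
    have h7 := h3.trans h6
    have h8 : 2 ≤ (P.parts.filter (fun Y => (Y ∩ {e (q, true), e (q, false)}).Nonempty)).card := by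
      exact_mod_cast h7
    omega
  have hsum : ∀ (W : Finset (Fin n)), W.card = ∑ q : Fin t × Bool,
      ((if e (q, true) ∈ W then 1 else 0) + (if e (q, false) ∈ W then 1 else 0)) := by
    intro W
    have h2 : W.card = ∑ a, if a ∈ W then 1 else 0 := by
      rw [Finset.sum_boole, Nat.cast_id]
      congr 1; ext a; simp
    rw [h2, ← e.sum_comp, Fintype.sum_prod_type]
    refine Finset.sum_congr rfl fun q _ => ?_
    rw [Fintype.sum_bool]
  have hle : ∀ q ∈ (univ : Finset (Fin t × Bool)),
      ((if e (q, true) ∈ Z then 1 else 0) + (if e (q, false) ∈ Z then 1 else 0)) ≤ 1 := by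
    intro q _
    have := hpair q
    split_ifs <;> simp_all
  have heq : ∑ q : Fin t × Bool,
      ((if e (q, true) ∈ Z then 1 else 0) + (if e (q, false) ∈ Z then 1 else 0))
      = ∑ q : Fin t × Bool, 1 := by
    rw [← hsum, hZcard]; simp [mul_comm]
  have hone := (Finset.sum_eq_sum_iff_of_le hle).1 heq
  have hinter : (hid e χ ∩ Z).card = t := by
    rw [hsum, Fintype.sum_prod_type]
    have : ∀ i : Fin t, ∑ c : Bool, ((if e ((i, c), true) ∈ hid e χ ∩ Z then 1 else 0) +
        (if e ((i, c), false) ∈ hid e χ ∩ Z then 1 else 0)) = 1 := by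
      intro i
      rw [Finset.sum_eq_single (χ i)]
      · have h2 := hone (i, χ i) (mem_univ _)
        have h3 : ∀ b : Bool, (e ((i, χ i), b) ∈ hid e χ ∩ Z) ↔ e ((i, χ i), b) ∈ Z := by
          intro b
          rw [mem_inter]
          have : e ((i, χ i), b) ∈ hid e χ := by
            rw [hid, mem_filter]
            refine ⟨mem_univ _, ?_⟩
            rw [e.symm_apply_apply]
          exact ⟨fun h => h.2, fun h => ⟨this, h⟩⟩
        rw [if_congr (h3 true) rfl rfl, if_congr (h3 false) rfl rfl]
        exact h2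
      · intro c _ hc
        have h3 : ∀ b : Bool, e ((i, c), b) ∉ hid e χ ∩ Z := by
          intro b hb
          rw [mem_inter, hid, mem_filter, e.symm_apply_apply] at hb
          exact hc hb.1.2
        rw [if_neg (h3 true), if_neg (h3 false), add_zero]
      · intro h2; exact absurd (mem_univ _) h2
    rw [Finset.sum_congr rfl (fun i _ => this i)]
    simp
  have hdiff : (hid e χ \ Z).card = t := by
    have h2 := card_sdiff_add_card_inter (hid e χ) Z
    rw [card_hid] at h2
    omega
  have h2 := (le_max_left _ _).trans (hcov (hid e χ))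
  simp only [pp, if_true] at h2
  have h3 := (ph_ge' e χ (subset_refl (hid e χ))).trans h2
  rw [card_hid] at h3
  have h4 : (P.parts.filter (fun Y => (Y ∩ hid e χ).Nonempty)) ⊆
      insert Z ((hid e χ \ Z).image singleton) := by
    intro Y hY
    rw [mem_filter] at hY
    obtain ⟨hY1, a, ha⟩ := hY
    rw [mem_inter] at ha
    by_cases hYZ : Y = Z
    · rw [hYZ]; exact mem_insert_self _ _
    · apply mem_insert_of_mem
      obtain ⟨b, hb⟩ := card_eq_one.1 (hother Y hY1 hYZ)
      rw [mem_image]
      rw [hb, mem_singleton] at ha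
      refine ⟨b, mem_sdiff.2 ⟨ha.1 ▸ ha.2, fun hbZ => ?_⟩, hb.symm⟩
      exact disjoint_left.1 (P.disjoint hY1 hZmem.1 hYZ) (by rw [hb]; exact mem_singleton_self b) hbZ
  have h5 := (card_le_card h4).trans (card_insert_le _ _)
  rw [card_image_of_injective _ singleton_injective, hdiff] at h5
  have h6 : ((P.parts.filter (fun Y => (Y ∩ hid e χ).Nonempty)).card : ℤ) ≤ t + 1 := by
    exact_mod_cast h5
  push_cast at h3
  linarith

/-- positions touched by a set. -/
def pos (X : Finset (Fin n)) : Finset (Fin t) := X.image (fun a => (e.symm a).1.1)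

lemma card_pos_ge (χ : Fin t → Bool) (X : Finset (Fin n)) (hX : X ⊆ hid e χ) :
    X.card ≤ 2 * (pos e X).card := by
  have h : X ⊆ ((pos e X) ×ˢ (univ : Finset Bool)).image (fun q => e ((q.1, χ q.1), q.2)) := by
    intro a ha
    rw [mem_image]
    refine ⟨((e.symm a).1.1, (e.symm a).2), ?_, ?_⟩
    · rw [mem_product]
      exact ⟨mem_image_of_mem _ ha, mem_univ _⟩
    · have h2 := hX ha
      rw [hid, mem_filter] at h2
      simp only
      rw [← h2.2]
      simp
  refine (card_le_card h).trans (card_image_le.trans ?_)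
  rw [card_product]
  simp [mul_comm]

/-- few hidden sets contain a given large set. -/
lemma card_hid_supersets {s : ℕ} (ht : t = 4 * s) (X : Finset (Fin n))
    (hX : (t : ℤ) - 2 < 2 * X.card) :
    (univ.filter (fun χ : Fin t → Bool => X ⊆ hid e χ)).card ≤ 2 ^ (t - s) := by
  classical
  rcases (univ.filter (fun χ : Fin t → Bool => X ⊆ hid e χ)).eq_empty_or_nonempty with h | ⟨χ0, h0⟩
  · rw [h]; simp
  · rw [mem_filter] at h0
    have h1 := card_pos_ge e χ0 X h0.2
    have h2 : s ≤ (pos e X).card := by omega
    have hinj : (univ.filter (fun χ : Fin t → Bool => X ⊆ hid e χ)).card ≤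
        (univ : Finset ({i : Fin t // i ∉ pos e X} → Bool)).card := by
      refine card_le_card_of_injOn (fun χ i => χ i.1) (fun _ _ => mem_coe.2 (mem_univ _)) ?_
      intro χ hχ χ' hχ' hEq
      rw [mem_coe, mem_filter] at hχ hχ'
      funext i
      by_cases hi : i ∈ pos e X
      · rw [pos, mem_image] at hi
        obtain ⟨a, ha, rfl⟩ := hi
        have ha1 := hχ.2 ha
        have ha2 := hχ'.2 ha
        rw [hid, mem_filter] at ha1 ha2
        rw [← ha1.2, ← ha2.2]
      · exact congrFun hEq ⟨i, hi⟩
    refine hinj.trans ?_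
    rw [card_univ, Fintype.card_fun, Fintype.card_bool]
    refine Nat.pow_le_pow_right (by norm_num) ?_
    rw [Fintype.card_subtype_compl, Fintype.card_fin, Fintype.card_coe]
    omega

/-- every correct procedure makes many calls on the base instance. -/
lemma many_calls {s : ℕ} (ht : t = 4 * s) (T : DTree n)
    (hbase : T.answer (pp p0 (p2 e)) = true)
    (hhid : ∀ χ : Fin t → Bool, T.answer (pp (ph e χ) (p2 e)) = false) :
    2 ^ s ≤ T.calls (pp p0 (p2 e)) := by
  classical
  set L := T.asked (pp p0 (p2 e)) with hL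
  have hcover : (univ : Finset (Fin t → Bool)) ⊆
      (L.toFinset).biUnion (fun q => if (t : ℤ) - 2 < 2 * q.2.card then
        univ.filter (fun χ : Fin t → Bool => q.2 ⊆ hid e χ) else ∅) := by
    intro χ _
    by_contra hcon
    have hag : ∀ a ∈ L, pp p0 (p2 e) a.1 a.2 = pp (ph e χ) (p2 e) a.1 a.2 := by
      intro a ha
      rcases a with ⟨b, X⟩
      cases b
      · rfl
      · simp only [pp, if_true]
        by_contra hne
        apply hcon
        rw [mem_biUnion]
        refine ⟨(true, X), List.mem_toFinset.2 ha, ?_⟩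
        rcases ph_cases e χ X with h1 | ⟨h1, h2⟩
        · exact absurd h1.symm hne
        · have h3 := ph_ge e χ X
          unfold p0 at hne
          rw [h2] at hne h3
          rw [if_pos (by simp only; omega), mem_filter]
          exact ⟨mem_univ _, h1⟩
    have := answer_congr _ _ T hag
    rw [hhid χ, hbase] at this
    exact absurd this (by decide)
  have hcard := (card_le_card hcover).trans card_biUnion_le
  have hbound : ∑ q ∈ L.toFinset, (if (t : ℤ) - 2 < 2 * q.2.card then
        univ.filter (fun χ : Fin t → Bool => q.2 ⊆ hid e χ) else ∅).card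
        ≤ L.toFinset.card * 2 ^ (t - s) := by
    rw [← smul_eq_mul]
    refine Finset.sum_le_card_nsmul _ _ _ fun q _ => ?_
    split_ifs with h
    · exact card_hid_supersets e ht q.2 h
    · simp
  have hfin := hcard.trans hbound
  rw [card_univ, Fintype.card_fun, Fintype.card_bool, Fintype.card_fin] at hfin
  have hlen : L.toFinset.card ≤ T.calls (pp p0 (p2 e)) := by
    rw [← asked_length]; exact List.toFinset_card_le _
  have h1 : 2 ^ t = 2 ^ s * 2 ^ (t - s) := by rw [← pow_add]; congr 1; omega
  rw [h1] at hfin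
  have h2 := Nat.le_of_mul_le_mul_right hfin (by positivity)
  exact h2.trans hlen

end Inst

lemma growth (C : ℕ) : ∃ s : ℕ, 1 ≤ s ∧ C * (16 * s + 1) ^ C < 2 ^ s := by
  have h1 := tendsto_pow_const_div_const_pow_of_one_lt C (r := 2) (by norm_num)
  have hpos : (0 : ℝ) < 1 / ((C : ℝ) * 17 ^ C + 1) := by positivity
  have h2 := (h1.eventually (gt_mem_nhds hpos)).and (Filter.eventually_ge_atTop 1)
  obtain ⟨k, hk, hk4⟩ := h2.exists
  refine ⟨k, hk4, ?_⟩
  have h4 : (0 : ℝ) < 2 ^ k := by positivity
  have h5 : (0 : ℝ) < (C : ℝ) * 17 ^ C + 1 := by positivity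
  rw [div_lt_div_iff₀ h4 h5, one_mul] at hk
  have h6 : ((k ^ C * (C * 17 ^ C + 1) : ℕ) : ℝ) < ((2 ^ k : ℕ) : ℝ) := by
    push_cast; exact hk
  have h7 : k ^ C * (C * 17 ^ C + 1) < 2 ^ k := by exact_mod_cast h6
  have h8 : (16 * k + 1) ^ C ≤ (17 * k) ^ C := Nat.pow_le_pow_left (by omega) C
  calc C * (16 * k + 1) ^ C ≤ C * (17 * k) ^ C := Nat.mul_le_mul_left _ h8
      _ = k ^ C * (C * 17 ^ C) := by rw [mul_pow]; ring
      _ ≤ k ^ C * (C * 17 ^ C + 1) := Nat.mul_le_mul_left _ (Nat.le_succ _)
      _ < 2 ^ k := h7

/-- No algorithm with polynomially many value-oracle calls decides whether a feasible partition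
exists. -/
theorem result : ¬ ∃ (A : ∀ n : ℕ, ℕ → ℕ → ℕ → ℕ → DTree n) (C : ℕ),
    ∀ (n m₁ m₂ n₁ n₂ : ℕ) (p : Bool → Finset (Fin n) → ℤ), IsInstance n m₁ m₂ n₁ n₂ p →
      (A n m₁ m₂ n₁ n₂).calls p ≤ C * (n + 1) ^ C ∧
      ((A n m₁ m₂ n₁ n₂).answer p = true ↔ ∃ P, IsFeasible m₁ m₂ n₁ n₂ p P) := by
  rintro ⟨A, C, hA⟩
  obtain ⟨s, hs, hC⟩ := growth C
  have hcard : Fintype.card ((Fin (4 * s) × Bool) × Bool) = 16 * s := by
    simp only [Fintype.card_prod, Fintype.card_fin, Fintype.card_bool]; omega
  let e : ((Fin (4 * s) × Bool) × Bool) ≃ Fin (16 * s) := Fintype.equivFinOfCardEq hcard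
  set T := A (16 * s) (2 * (4 * s)) 1 1 (2 * (4 * s)) with hT
  have hb := hA _ _ _ _ _ _ (inst_base e (by omega) (by omega))
  have hh := fun χ => hA _ _ _ _ _ _ (inst_hid e (by omega) (by omega) χ)
  have hbase : T.answer (pp p0 (p2 e)) = true :=
    hb.2.2 (exists_feasible e (by omega) (by omega))
  have hhid : ∀ χ, T.answer (pp (ph e χ) (p2 e)) = false := by
    intro χ
    by_contra hne
    rw [Bool.not_eq_false] at hne
    obtain ⟨P, hP⟩ := (hh χ).2.1 hne
    exact infeasible e (by omega) χ P hP
  have h1 := many_calls e rfl T hbase hhid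
  have h2 := hb.1
  exact absurd (h1.trans h2) (not_le.2 hC)

end Pool.Agent.Results.MP_1195b1_lc.OracleLB
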